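import Mathlib

set_option autoImplicit false

/-!
# The recursive path ordering with status for a partial precedence
-/

namespace Pool.Agent.N631.RPO

open FirstOrder FirstOrder.Language

/-- A finite signature: the function symbols are `0, ..., k - 1`, `ar f` is the arity of `f`, and
there is a constant. `prec f g` means `f ≻ g`; this is a strict partial order. The status of `f` is
`lex` if `lex f = true` and `mul` if `lex f = false`. -/
structure Sig where
  k : ℕ
  ar : Fin k → ℕ
  exists_const : ∃ f, ar f = 0
  prec : Fin k → Fin k → Prop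
  prec_irrefl : ∀ f, ¬ prec f f
  prec_trans : ∀ f g h, prec f g → prec g h → prec f h
  lex : Fin k → Bool

/-- the relation symbol `>` -/
inductive GtSym : ℕ → Type
  | gt : GtSym 2

/-- the first-order language with the function symbols of the signature and `>` -/
def lang (S : Sig) : Language := ⟨fun n => {f : Fin S.k // S.ar f = n}, GtSym⟩

/-- the ground terms (terms without variables) -/
abbrev T (S : Sig) : Type := (lang S).Term Empty

/-- the congruence generated by permuting the arguments of the symbols with status `mul` -/
inductive Eqv (S : Sig) : T S → T S → Prop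
  | refl (s : T S) : Eqv S s s
  | symm (s t : T S) : Eqv S s t → Eqv S t s
  | trans (s t u : T S) : Eqv S s t → Eqv S t u → Eqv S s u
  | congr {n : ℕ} (f : (lang S).Functions n) (s t : Fin n → T S) :
      (∀ i, Eqv S (s i) (t i)) → Eqv S (Term.func f s) (Term.func f t)
  | perm {n : ℕ} (f : (lang S).Functions n) (s : Fin n → T S) (σ : Equiv.Perm (Fin n)) :
      S.lex f.1 = false → Eqv S (Term.func f s) (Term.func f (fun i => s (σ i)))

/-- The recursive path ordering: `f(s_1, ..., s_m) > t` iff
(1) `s_i > t` or `s_i ≈ t` for some `i`, or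
(2) `t = g(t_1, ..., t_n)` with `f ≻ g` and `f(s_1, ..., s_m) > t_j` for all `j`, or
(3) `t = f(t_1, ..., t_m)`, `f(s_1, ..., s_m) > t_j` for all `j`, and `s` is greater than `t` in the
lexicographic extension (`s_j ≈ t_j` for `j < i` and `s_i > t_i`) if the status of `f` is `lex`, and
in the multiset extension if it is `mul` (for some bijection `σ` between the argument places and some
nonempty set `I` of places, `s_i ≈ t_(σ i)` for `i` outside `I`, and each `t_(σ i)` with `i` in `I`
is smaller than some `s_l` with `l` in `I`). -/
inductive Gt (S : Sig) : T S → T S → Prop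
  | sub {n : ℕ} (f : (lang S).Functions n) (s : Fin n → T S) (t : T S) (i : Fin n) :
      Gt S (s i) t → Gt S (Term.func f s) t
  | sub_eqv {n : ℕ} (f : (lang S).Functions n) (s : Fin n → T S) (t : T S) (i : Fin n) :
      Eqv S (s i) t → Gt S (Term.func f s) t
  | prec {m n : ℕ} (f : (lang S).Functions m) (g : (lang S).Functions n) (s : Fin m → T S)
      (t : Fin n → T S) : S.prec f.1 g.1 → (∀ j, Gt S (Term.func f s) (t j)) →
      Gt S (Term.func f s) (Term.func g t)
  | lex {n : ℕ} (f : (lang S).Functions n) (s t : Fin n → T S) (i : Fin n) :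
      S.lex f.1 = true → (∀ j, Gt S (Term.func f s) (t j)) →
      (∀ j, j < i → Eqv S (s j) (t j)) → Gt S (s i) (t i) →
      Gt S (Term.func f s) (Term.func f t)
  | mul {n : ℕ} (f : (lang S).Functions n) (s t : Fin n → T S) (σ : Equiv.Perm (Fin n))
      (I : Set (Fin n)) (l : Fin n → Fin n) :
      S.lex f.1 = false → (∀ j, Gt S (Term.func f s) (t j)) → I.Nonempty →
      (∀ i, i ∉ I → Eqv S (s i) (t (σ i))) → (∀ i, i ∈ I → l i ∈ I) →
      (∀ i, i ∈ I → Gt S (s (l i)) (t (σ i))) →
      Gt S (Term.func f s) (Term.func f t)

/-- the ground terms with the recursive path ordering -/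
instance (S : Sig) : (lang S).Structure (T S) where
  funMap := fun {_} f ts => Term.func f ts
  RelMap := fun {n} (r : GtSym n) => match n, r with
    | _, .gt => fun v => Gt S (v 0) (v 1)

/-- Gödel number of a term in the variables `x_0, ..., x_(m-1)` -/
def termCode {S : Sig} {m : ℕ} : (lang S).Term (Empty ⊕ Fin m) → ℕ
  | .var (.inr i) => Nat.pair 0 i
  | .func (l := l) f ts =>
      Nat.pair ((f : {f : Fin S.k // S.ar f = l}).1 + 1)
        (Encodable.encode (List.ofFn fun i => termCode (ts i)))

/-- Gödel number of a formula (of a sentence if `m = 0`) -/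
def code {S : Sig} : {m : ℕ} → (lang S).BoundedFormula Empty m → ℕ
  | _, .falsum => Nat.pair 0 0
  | _, .equal t u => Nat.pair 1 (Nat.pair (termCode t) (termCode u))
  | _, .rel GtSym.gt ts => Nat.pair 2 (Nat.pair (termCode (ts 0)) (termCode (ts 1)))
  | _, .imp φ ψ => Nat.pair 3 (Nat.pair (code φ) (code ψ))
  | _, .all φ => Nat.pair 4 (code φ)

/-- The existential fragment of the theory of the ground terms with the recursive path ordering is
decidable: some algorithm tells for (the Gödel number of) each existential sentence whether it is
true. -/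
def ExistentialDecidable (S : Sig) : Prop :=
  ∃ d : ℕ → Bool, Computable d ∧
    ∀ φ : (lang S).Sentence, φ.IsExistential → (d (code φ) = true ↔ T S ⊨ φ)

end Pool.Agent.N631.RPO
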