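import Mathlib
import Pool.Agent.H761R3.Sys

set_option autoImplicit false

/-!
# Systems of positive and negative subword constraints

Words over the alphabet `Fin 3`. A literal says that a term (a fixed word followed by a variable or
by nothing) is, or is not, a (scattered) subword of another one. Relations given by finite systems of
literals with auxiliary variables contain addition and multiplication of exponents.
-/

namespace Pool.Agent.N631.RPO

/-- words over three letters -/
abbrev Word := List (Fin 3)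

/-- a term: a fixed word followed by a variable, or by nothing -/
abbrev WT (V : Type) := Word × Option V

/-- value of a term -/
def WT.eval {V : Type} (y : V → Word) (t : WT V) : Word :=
  t.1 ++ (match t.2 with
    | none => []
    | some v => y v)

def WT.map {V W : Type} (f : V → W) (t : WT V) : WT W := (t.1, t.2.map f)

theorem WT.eval_map {V W : Type} (f : V → W) (y : W → Word) (t : WT V) :
    (t.map f).eval y = t.eval (y ∘ f) := by
  obtain ⟨p, v⟩ := t
  cases v <;> rfl

/-- a literal -/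
abbrev Lit (V : Type) := Bool × WT V × WT V

def Lit.Holds {V : Type} (y : V → Word) (l : Lit V) : Prop :=
  (l.2.1.eval y).Sublist (l.2.2.eval y) ↔ l.1 = true

def Lit.map {V W : Type} (f : V → W) (l : Lit V) : Lit W := (l.1, l.2.1.map f, l.2.2.map f)

theorem Lit.holds_map {V W : Type} (f : V → W) (y : W → Word) (l : Lit V) :
    (Lit.map f l).Holds y ↔ l.Holds (y ∘ f) := by
  unfold Lit.Holds Lit.map
  rw [WT.eval_map, WT.eval_map]

/-- relations given by finite systems -/
def Sy (γ : Type) (R : (γ → Word) → Prop) : Prop :=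
  ∃ (β : Type) (_ : Fintype β) (L : List (Lit (γ ⊕ β))),
    ∀ v, R v ↔ ∃ y : β → Word, ∀ c ∈ L, Lit.Holds (Sum.elim v y) c

theorem Sy.congr {γ : Type} {R R' : (γ → Word) → Prop} (h : Sy γ R) (e : ∀ v, R' v ↔ R v) :
    Sy γ R' := by
  obtain ⟨β, i, L, hL⟩ := h
  exact ⟨β, i, L, fun v => (e v).trans (hL v)⟩

theorem Sy.reindex {γ γ' : Type} {R : (γ → Word) → Prop} (h : Sy γ R) (f : γ → γ') :
    Sy γ' (fun v => R (v ∘ f)) := by
  obtain ⟨β, i, L, hL⟩ := h
  refine ⟨β, i, L.map (Lit.map (Sum.map f id)), fun v => (hL _).trans ?_⟩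
  refine exists_congr fun y => ?_
  have e : Sum.elim v y ∘ Sum.map f id = Sum.elim (v ∘ f) y := by
    funext g
    rcases g with g | g <;> rfl
  constructor
  · intro hy c hc
    rw [List.mem_map] at hc
    obtain ⟨c, hc, rfl⟩ := hc
    rw [Lit.holds_map, e]
    exact hy c hc
  · intro hy c hc
    have := hy _ (List.mem_map_of_mem hc)
    rwa [Lit.holds_map, e] at this

theorem Sy.all {γ δ : Type} [Fintype δ] {R : δ → (γ → Word) → Prop} (h : ∀ d, Sy γ (R d)) :
    Sy γ (fun v => ∀ d, R d v) := by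
  classical
  choose β i L hL using h
  let _ := i
  refine ⟨(d : δ) × β d, inferInstance,
    (Finset.univ : Finset δ).toList.flatMap
      (fun d => (L d).map (Lit.map (Sum.map id (Sigma.mk d)))), fun v => ?_⟩
  have e : ∀ (y : ((d : δ) × β d) → Word) (d : δ),
      Sum.elim v y ∘ Sum.map id (Sigma.mk d) = Sum.elim v (fun b => y ⟨d, b⟩) := by
    intro y d
    funext g
    rcases g with g | g <;> rfl
  constructor
  · intro hv
    have hv' : ∀ d, ∃ y : β d → Word, ∀ c ∈ L d, Lit.Holds (Sum.elim v y) c := fun d =>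
      (hL d v).1 (hv d)
    choose y hy using hv'
    refine ⟨fun b => y b.1 b.2, fun c hc => ?_⟩
    rw [List.mem_flatMap] at hc
    obtain ⟨d, -, hc⟩ := hc
    rw [List.mem_map] at hc
    obtain ⟨c, hc, rfl⟩ := hc
    rw [Lit.holds_map, e]
    exact hy d c hc
  · rintro ⟨y, hy⟩ d
    rw [hL]
    refine ⟨fun b => y ⟨d, b⟩, fun c hc => ?_⟩
    rw [← e, ← Lit.holds_map]
    refine hy _ ?_
    rw [List.mem_flatMap]
    exact ⟨d, by simp, List.mem_map_of_mem hc⟩

theorem Sy.and {γ : Type} {R R' : (γ → Word) → Prop} (h : Sy γ R) (h' : Sy γ R') :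
    Sy γ (fun v => R v ∧ R' v) := by
  have : Sy γ (fun v => ∀ b : Bool, (cond b R R') v) :=
    Sy.all (fun b => by cases b <;> assumption)
  refine this.congr fun v => ?_
  constructor
  · rintro ⟨h1, h2⟩ b
    cases b
    · exact h2
    · exact h1
  · intro h
    exact ⟨h true, h false⟩

theorem Sy.ex {γ δ : Type} [Fintype δ] {R : (γ ⊕ δ → Word) → Prop} (h : Sy (γ ⊕ δ) R) :
    Sy γ (fun v => ∃ t : δ → Word, R (Sum.elim v t)) := by
  obtain ⟨β, i, L, hL⟩ := h
  refine ⟨δ ⊕ β, inferInstance, L.map (Lit.map (Equiv.sumAssoc γ δ β)), fun v => ?_⟩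
  have e : ∀ (t : δ → Word) (y : β → Word),
      Sum.elim v (Sum.elim t y) ∘ (Equiv.sumAssoc γ δ β) = Sum.elim (Sum.elim v t) y := by
    intro t y
    funext g
    rcases g with (g | g) | g <;> rfl
  constructor
  · rintro ⟨t, ht⟩
    rw [hL] at ht
    obtain ⟨y, hy⟩ := ht
    refine ⟨Sum.elim t y, fun c hc => ?_⟩
    rw [List.mem_map] at hc
    obtain ⟨c, hc, rfl⟩ := hc
    rw [Lit.holds_map, e]
    exact hy c hc
  · rintro ⟨y, hy⟩
    refine ⟨fun d => y (Sum.inl d), ?_⟩
    rw [hL]
    refine ⟨fun b => y (Sum.inr b), fun c hc => ?_⟩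
    rw [← e, ← Lit.holds_map]
    have e2 : Sum.elim v (Sum.elim (fun d => y (Sum.inl d)) fun b => y (Sum.inr b)) =
        Sum.elim v y := by
      congr 1
      funext g
      rcases g with g | g <;> rfl
    rw [e2]
    exact hy _ (List.mem_map_of_mem hc)

/-- existential quantification over one variable, in curried form -/
theorem Sy.ex1 {γ : Type} {R : Word → (γ → Word) → Prop}
    (h : Sy (γ ⊕ Unit) (fun v => R (v (Sum.inr ())) (fun g => v (Sum.inl g)))) :
    Sy γ (fun v => ∃ x, R x v) := by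
  refine (Sy.ex h).congr fun v => ?_
  constructor
  · rintro ⟨x, hx⟩
    exact ⟨fun _ => x, hx⟩
  · rintro ⟨t, ht⟩
    exact ⟨t (), ht⟩

theorem Sy.lit {γ : Type} (s t : WT γ) : Sy γ (fun v => (s.eval v).Sublist (t.eval v)) := by
  refine ⟨Empty, inferInstance, [(true, s.map Sum.inl, t.map Sum.inl)], fun v => ?_⟩
  have e : ∀ y : Empty → Word, Sum.elim v y ∘ Sum.inl = v := fun y => rfl
  constructor
  · intro h
    refine ⟨Empty.elim, fun c hc => ?_⟩
    rw [List.mem_singleton] at hc
    subst hc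
    unfold Lit.Holds
    simp only [WT.eval_map, e, iff_true]
    exact h
  · rintro ⟨y, hy⟩
    have := hy _ (List.mem_singleton.2 rfl)
    unfold Lit.Holds at this
    simp only [WT.eval_map, e, iff_true] at this
    exact this

theorem Sy.nlit {γ : Type} (s t : WT γ) : Sy γ (fun v => ¬ (s.eval v).Sublist (t.eval v)) := by
  refine ⟨Empty, inferInstance, [(false, s.map Sum.inl, t.map Sum.inl)], fun v => ?_⟩
  have e : ∀ y : Empty → Word, Sum.elim v y ∘ Sum.inl = v := fun y => rfl
  constructor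
  · intro h
    refine ⟨Empty.elim, fun c hc => ?_⟩
    rw [List.mem_singleton] at hc
    subst hc
    unfold Lit.Holds
    simp only [WT.eval_map, e, Bool.false_eq_true, iff_false]
    exact h
  · rintro ⟨y, hy⟩
    have := hy _ (List.mem_singleton.2 rfl)
    unfold Lit.Holds at this
    simp only [WT.eval_map, e, Bool.false_eq_true, iff_false] at this
    exact this

/-! ### words -/

/-- equality of terms -/
theorem Sy.eqT {γ : Type} (s t : WT γ) : Sy γ (fun v => s.eval v = t.eval v) := by
  refine ((Sy.lit s t).and (Sy.lit t s)).congr fun v => ?_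
  constructor
  · intro h
    rw [h]
    exact ⟨List.Sublist.refl _, List.Sublist.refl _⟩
  · rintro ⟨h1, h2⟩
    exact h1.antisymm h2

/-- term: fixed word and variable -/
abbrev pv {γ : Type} (p : Word) (i : γ) : WT γ := (p, some i)
/-- term: fixed word -/
abbrev pc {γ : Type} (p : Word) : WT γ := (p, none)

@[simp] theorem eval_pv {γ : Type} (p : Word) (i : γ) (v : γ → Word) :
    WT.eval v (pv p i) = p ++ v i := rfl
@[simp] theorem eval_pc {γ : Type} (p : Word) (v : γ → Word) :
    WT.eval v (pc p) = p := by simp [WT.eval]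

theorem Sy.sub {γ : Type} (p q : Word) (i j : γ) : Sy γ (fun v => (p ++ v i).Sublist (q ++ v j)) :=
  Sy.lit (pv p i) (pv q j)
theorem Sy.nsub {γ : Type} (p q : Word) (i j : γ) : Sy γ (fun v => ¬ (p ++ v i).Sublist (q ++ v j)) :=
  Sy.nlit (pv p i) (pv q j)
theorem Sy.csub {γ : Type} (p : Word) (j : γ) : Sy γ (fun v => p.Sublist (v j)) :=
  (Sy.lit (pc p) (pv [] j)).congr fun v => by simp
theorem Sy.ncsub {γ : Type} (p : Word) (j : γ) : Sy γ (fun v => ¬ p.Sublist (v j)) :=
  (Sy.nlit (pc p) (pv [] j)).congr fun v => by simp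
theorem Sy.eqc {γ : Type} (p : Word) (j : γ) : Sy γ (fun v => v j = p) :=
  (Sy.eqT (pv [] j) (pc p)).congr fun v => by simp
theorem Sy.eqv {γ : Type} (p q : Word) (i j : γ) : Sy γ (fun v => p ++ v i = q ++ v j) :=
  Sy.eqT (pv p i) (pv q j)

/-- only the letter `x` occurs -/
def Pow (x : Fin 3) (z : Word) : Prop := ∀ y, y ≠ x → y ∉ z

theorem pow_iff {x : Fin 3} {z : Word} : Pow x z ↔ z = List.replicate z.length x := by
  rw [List.eq_replicate_iff]
  constructor
  · intro h
    refine ⟨rfl, fun b hb => ?_⟩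
    by_contra hne
    exact h b hne hb
  · rintro ⟨-, h⟩ y hy hz
    exact hy (h y hz)

theorem pow_replicate (x : Fin 3) (n : ℕ) : Pow x (List.replicate n x) := by
  intro y hy h
  exact hy (List.eq_of_mem_replicate h)

theorem sy_notin {γ : Type} (y : Fin 3) (i : γ) : Sy γ (fun v => y ∉ v i) :=
  (Sy.ncsub [y] i).congr fun v => by rw [List.singleton_sublist]

theorem sy_in {γ : Type} (y : Fin 3) (i : γ) : Sy γ (fun v => y ∈ v i) :=
  (Sy.csub [y] i).congr fun v => by rw [List.singleton_sublist]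

theorem sy_true {γ : Type} : Sy γ (fun _ => True) :=
  (Sy.lit (pc []) (pc [])).congr fun v => by simp

theorem sy_pow {γ : Type} (x : Fin 3) (i : γ) : Sy γ (fun v => Pow x (v i)) := by
  refine (Sy.all (δ := Fin 3) (R := fun y v => y ≠ x → y ∉ v i) fun y => ?_).congr fun v => Iff.rfl
  by_cases h : y = x
  · exact sy_true.congr fun v => by simp [h]
  · exact (sy_notin y i).congr fun v => by simp [h]

/-- `z` is `x` to the number of occurrences of `x` in `u` -/
def Cnt (x : Fin 3) (u z : Word) : Prop := z = List.replicate (u.count x) x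

theorem cnt_iff (x : Fin 3) (u z : Word) :
    Cnt x u z ↔ Pow x z ∧ z.Sublist u ∧ ¬ (x :: z).Sublist u := by
  unfold Cnt
  constructor
  · rintro rfl
    refine ⟨pow_replicate _ _, List.replicate_sublist_iff.2 le_rfl, fun h => ?_⟩
    have h1 := h.count_le x
    simp at h1
  · rintro ⟨h1, h2, h3⟩
    rw [pow_iff] at h1
    rw [h1] at h2 h3 ⊢
    rw [List.replicate_sublist_iff] at h2
    rw [← List.replicate_succ, List.replicate_sublist_iff] at h3
    congr 1
    omega

theorem sy_cnt {γ : Type} (x : Fin 3) (i j : γ) : Sy γ (fun v => Cnt x (v i) (v j)) := by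
  refine ((sy_pow x j).and ((Sy.sub [] [] j i).and (Sy.nsub [x] [] j i))).congr fun v => ?_
  rw [cnt_iff]
  simp

/-- words with exactly one letter `2` -/
theorem one_marker {X : Word} (h1 : 2 ∈ X) (h2 : ¬ [2, 2].Sublist X) :
    ∃ p q, X = p ++ 2 :: q ∧ (2 : Fin 3) ∉ p ∧ (2 : Fin 3) ∉ q := by
  obtain ⟨p, q, rfl, hp⟩ := List.eq_append_cons_of_mem h1
  refine ⟨p, q, rfl, hp, fun hq => h2 ?_⟩
  exact ((List.singleton_sublist.2 hq).cons_cons 2).trans (List.sublist_append_right p (2 :: q))

theorem marker_not {p q : Word} (hp : (2 : Fin 3) ∉ p) (hq : (2 : Fin 3) ∉ q) :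
    ¬ [(2 : Fin 3), 2].Sublist (p ++ 2 :: q) := by
  intro h
  have h1 := h.count_le 2
  have h2 : (p ++ 2 :: q).count (2 : Fin 3) = 1 := by
    rw [List.count_append, List.count_cons_self, List.count_eq_zero_of_not_mem hp,
      List.count_eq_zero_of_not_mem hq]
  rw [h2] at h1
  simp at h1

theorem marker_sub {p q p' q' : Word} (hp : (2 : Fin 3) ∉ p) (hq : (2 : Fin 3) ∉ q)
    (hp' : (2 : Fin 3) ∉ p') (hq' : (2 : Fin 3) ∉ q') :
    (p ++ 2 :: q).Sublist (p' ++ 2 :: q') ↔ p.Sublist p' ∧ q.Sublist q' := by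
  constructor
  · intro h
    obtain ⟨l1, l2, h1, h2, h3⟩ := List.sublist_append_iff.1 h
    have h4 : (2 : Fin 3) ∉ l1 := fun hm => hp' (h2.subset hm)
    have h5 : (2 : Fin 3) ∈ l2 := by
      have : (2 : Fin 3) ∈ l1 ++ l2 := by rw [← h1]; simp
      rcases List.mem_append.1 this with h6 | h6
      · exact absurd h6 h4
      · exact h6
    rcases List.sublist_cons_iff.1 h3 with h6 | ⟨t, rfl, ht⟩
    · exact absurd (h6.subset h5) hq'
    · have h7 : (2 : Fin 3) ∉ t := fun hm => hq' (ht.subset hm)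
      obtain ⟨rfl, -, rfl⟩ := (List.append_cons_inj_of_notMem h4 h7).1 h1.symm |> fun h => h
      exact ⟨h2, ht⟩
  · rintro ⟨h1, h2⟩
    exact h1.append (h2.cons_cons 2)

end Pool.Agent.N631.RPO
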