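import Mathlib
import Pool.Agent.N631.RPO.Words

set_option autoImplicit false

/-!
# Addition, concatenation and multiplication by systems of subword constraints
-/

namespace Pool.Agent.N631.RPO

theorem length_eq_count (w : Word) : w.length = w.count 0 + w.count 1 + w.count 2 := by
  induction w with
  | nil => rfl
  | cons a w ih =>
    fin_cases a <;> simp [ih] <;> omega

/-- equally many letters `x` -/
def Same (x : Fin 3) (u v : Word) : Prop := u.count x = v.count x

theorem sy_same {γ : Type} (x : Fin 3) (i j : γ) : Sy γ (fun v => Same x (v i) (v j)) := by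
  have h : Sy (γ ⊕ Unit) (fun v => Cnt x (v (Sum.inl i)) (v (Sum.inr ())) ∧
      Cnt x (v (Sum.inl j)) (v (Sum.inr ()))) := (sy_cnt x _ _).and (sy_cnt x _ _)
  refine (Sy.ex1 (R := fun z v => Cnt x (v i) z ∧ Cnt x (v j) z) h).congr fun v => ?_
  unfold Same Cnt
  constructor
  · intro h
    exact ⟨_, rfl, by rw [h]⟩
  · rintro ⟨z, rfl, h⟩
    exact (List.replicate_left_inj.1 h)

/-- addition of exponents -/
def AddR (x : Fin 3) (z1 z2 z3 : Word) : Prop :=
  ∃ i j : ℕ, z1 = List.replicate i x ∧ z2 = List.replicate j x ∧ z3 = List.replicate (i + j) x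

/-- no letters except `x` and `2` -/
def Oth (x : Fin 3) (w : Word) : Prop := ∀ y, y ≠ x → y ≠ 2 → y ∉ w

theorem sy_oth {γ : Type} (x : Fin 3) (i : γ) : Sy γ (fun v => Oth x (v i)) := by
  refine (Sy.all (δ := Fin 3) (R := fun y v => y ≠ x → y ≠ 2 → y ∉ v i) fun y => ?_).congr
    fun v => Iff.rfl
  by_cases h : y = x
  · exact sy_true.congr fun v => by simp [h]
  · by_cases h' : y = 2
    · exact sy_true.congr fun v => by simp [h']
    · exact (sy_notin y i).congr fun v => by simp [h, h']

theorem pow_of_oth {x : Fin 3} {w : Word} (h : Oth x w) (h2 : 2 ∉ w) :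
    w = List.replicate w.length x := by
  rw [← pow_iff]
  intro y hy
  by_cases h' : y = 2
  · rw [h']; exact h2
  · exact h y hy h'

/-- the body of the definition of addition -/
def AddBody (x : Fin 3) (z1 z2 z3 V X : Word) : Prop :=
  (Pow x z1 ∧ Pow x z2 ∧ Pow x z3) ∧
  (2 ∈ V ∧ ¬ [2, 2].Sublist V ∧ ¬ [2, x].Sublist V ∧ Oth x V ∧ Cnt x V z1) ∧
  (2 ∈ X ∧ ¬ [2, 2].Sublist X ∧ Oth x X ∧ Cnt x X z3) ∧
  V.Sublist X ∧ ¬ (x :: V).Sublist X ∧ (2 :: z2).Sublist X ∧ ¬ (2 :: x :: z2).Sublist X

theorem add_iff {x : Fin 3} (hx : x ≠ 2) (z1 z2 z3 : Word) :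
    AddR x z1 z2 z3 ↔ ∃ V X, AddBody x z1 z2 z3 V X := by
  have hr : ∀ n, (2 : Fin 3) ∉ List.replicate n x := fun n h =>
    hx (List.eq_of_mem_replicate h).symm
  constructor
  · rintro ⟨i, j, rfl, rfl, rfl⟩
    have ho : ∀ a b, Oth x (List.replicate a x ++ 2 :: List.replicate b x) := by
      intro a b y h1 h2 h3
      simp only [List.mem_append, List.mem_cons, List.mem_replicate] at h3
      rcases h3 with ⟨-, h3⟩ | h3 | ⟨-, h3⟩
      · exact h1 h3
      · exact h2 h3
      · exact h1 h3
    refine ⟨List.replicate i x ++ 2 :: List.replicate 0 x,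
      List.replicate i x ++ 2 :: List.replicate j x,
      ⟨pow_replicate _ _, pow_replicate _ _, pow_replicate _ _⟩,
      ⟨by simp, marker_not (hr i) (hr 0), ?_, ho _ _, ?_⟩,
      ⟨by simp, marker_not (hr i) (hr j), ho _ _, ?_⟩, ?_, ?_, ?_, ?_⟩
    · intro h
      have h1 : ([] ++ 2 :: [x]).Sublist (List.replicate i x ++ 2 :: List.replicate 0 x) := h
      rw [marker_sub (by simp) (by simpa using hx.symm) (hr i) (hr 0)] at h1
      simp at h1
    · unfold Cnt
      rw [List.count_append, List.count_cons_of_ne (Ne.symm hx)]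
      simp
    · unfold Cnt
      rw [List.count_append, List.count_cons_of_ne (Ne.symm hx)]
      simp
    · rw [marker_sub (hr _) (hr _) (hr _) (hr _)]
      simp
    · intro h
      have h1 : (List.replicate (i + 1) x ++ 2 :: List.replicate 0 x).Sublist
        (List.replicate i x ++ 2 :: List.replicate j x) := h
      rw [marker_sub (hr _) (hr _) (hr _) (hr _)] at h1
      have := h1.1.length_le
      simp at this
    · have h1 : ([] ++ 2 :: List.replicate j x).Sublist
        (List.replicate i x ++ 2 :: List.replicate j x) := by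
        rw [marker_sub (by simp) (hr _) (hr _) (hr _)]
        simp
      exact h1
    · intro h
      have h1 : ([] ++ 2 :: List.replicate (j + 1) x).Sublist
        (List.replicate i x ++ 2 :: List.replicate j x) := h
      rw [marker_sub (by simp) (hr _) (hr _) (hr _)] at h1
      have := h1.2.length_le
      simp at this
  · rintro ⟨V, X, ⟨hz1, hz2, hz3⟩, ⟨hV1, hV2, hV3, hV4, hV5⟩, ⟨hX1, hX2, hX3, hX4⟩, h1, h2, h3, h4⟩
    obtain ⟨p, q, rfl, hp, hq⟩ := one_marker hV1 hV2
    obtain ⟨p', q', rfl, hp', hq'⟩ := one_marker hX1 hX2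
    have hq0 : q = [] := by
      rw [List.eq_nil_iff_forall_not_mem]
      intro y hy
      by_cases hyx : y = x
      · subst hyx
        apply hV3
        exact ((List.singleton_sublist.2 hy).cons_cons 2).trans (List.sublist_append_right _ _)
      · by_cases hy2 : y = 2
        · subst hy2; exact hq hy
        · exact hV4 y hyx hy2 (by simp [hy])
    subst hq0
    have ep : p = List.replicate p.length x := pow_of_oth (fun y a b c => hV4 y a b (by simp [c])) hp
    have ep' : p' = List.replicate p'.length x :=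
      pow_of_oth (fun y a b c => hX3 y a b (by simp [c])) hp'
    have eq' : q' = List.replicate q'.length x :=
      pow_of_oth (fun y a b c => hX3 y a b (by simp [c])) hq'
    have e2 : z2 = List.replicate z2.length x := pow_iff.1 hz2
    have h2z : (2 : Fin 3) ∉ z2 := by rw [e2]; exact hr _
    have h5 : z1 = List.replicate p.length x := by
      have := hV5
      unfold Cnt at this
      rw [List.count_append, List.count_cons_of_ne (Ne.symm hx)] at this
      rw [this]
      congr 1
      conv_lhs => rw [ep]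
      simp
    have h6 : z3 = List.replicate (p'.length + q'.length) x := by
      have := hX4
      unfold Cnt at this
      rw [List.count_append, List.count_cons_of_ne (Ne.symm hx)] at this
      rw [this]
      congr 1
      conv_lhs => rw [ep', eq']
      simp
    rw [marker_sub hp (by simp) hp' hq'] at h1
    have h2' : ¬ ((x :: p) ++ 2 :: []).Sublist (p' ++ 2 :: q') := h2
    have hxp : (2 : Fin 3) ∉ x :: p := by
      simp only [List.mem_cons, not_or]
      exact ⟨hx.symm, hp⟩
    rw [marker_sub hxp (by simp) hp' hq'] at h2'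
    have h3' : ([] ++ 2 :: z2).Sublist (p' ++ 2 :: q') := h3
    rw [marker_sub (by simp) h2z hp' hq'] at h3'
    have h4' : ¬ ([] ++ 2 :: (x :: z2)).Sublist (p' ++ 2 :: q') := h4
    have hxz : (2 : Fin 3) ∉ x :: z2 := by
      simp only [List.mem_cons, not_or]
      exact ⟨hx.symm, h2z⟩
    rw [marker_sub (by simp) hxz hp' hq'] at h4'
    have a1 : p.length ≤ p'.length := h1.1.length_le
    have a2 : ¬ p.length + 1 ≤ p'.length := by
      intro h
      apply h2'
      refine ⟨?_, List.nil_sublist _⟩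
      rw [ep, ep', ← List.replicate_succ]
      exact List.replicate_sublist_replicate x |>.2 (by simpa using h)
    have a3 : z2.length ≤ q'.length := h3'.2.length_le
    have a4 : ¬ z2.length + 1 ≤ q'.length := by
      intro h
      apply h4'
      refine ⟨List.nil_sublist _, ?_⟩
      rw [e2, eq', ← List.replicate_succ]
      exact List.replicate_sublist_replicate x |>.2 (by simpa using h)
    refine ⟨p.length, z2.length, h5, e2, ?_⟩
    rw [h6]
    congr 1
    omega

theorem sy_add {γ : Type} {x : Fin 3} (hx : x ≠ 2) (i j k : γ) :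
    Sy γ (fun v => AddR x (v i) (v j) (v k)) := by
  have h : Sy ((γ ⊕ Unit) ⊕ Unit) (fun v => AddBody x (v (Sum.inl (Sum.inl i)))
      (v (Sum.inl (Sum.inl j))) (v (Sum.inl (Sum.inl k))) (v (Sum.inl (Sum.inr ())))
      (v (Sum.inr ()))) := by
    unfold AddBody
    exact ((sy_pow _ _).and ((sy_pow _ _).and (sy_pow _ _))).and
      (((sy_in _ _).and ((Sy.ncsub _ _).and ((Sy.ncsub _ _).and ((sy_oth _ _).and (sy_cnt _ _ _))))).and
      (((sy_in _ _).and ((Sy.ncsub _ _).and ((sy_oth _ _).and (sy_cnt _ _ _)))).and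
      ((Sy.sub [] [] _ _).and ((Sy.nsub [x] [] _ _).and ((Sy.sub [2] [] _ _).and
        (Sy.nsub [2, x] [] _ _))))))
  have h1 : Sy (γ ⊕ Unit) (fun v => ∃ X, AddBody x (v (Sum.inl i)) (v (Sum.inl j))
      (v (Sum.inl k)) (v (Sum.inr ())) X) :=
    Sy.ex1 (R := fun X v => AddBody x (v (Sum.inl i)) (v (Sum.inl j))
      (v (Sum.inl k)) (v (Sum.inr ())) X) h
  refine (Sy.ex1 (R := fun V v => ∃ X, AddBody x (v i) (v j) (v k) V X) h1).congr fun v => ?_
  exact add_iff hx _ _ _

/-- the numbers of letters `x` add up -/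
def Sum' (x : Fin 3) (u v w : Word) : Prop := u.count x + v.count x = w.count x

theorem sy_sum {γ : Type} {x : Fin 3} (hx : x ≠ 2) (i j k : γ) :
    Sy γ (fun v => Sum' x (v i) (v j) (v k)) := by
  have h : Sy (γ ⊕ Fin 3) (fun v => Cnt x (v (Sum.inl i)) (v (Sum.inr 0)) ∧
      Cnt x (v (Sum.inl j)) (v (Sum.inr 1)) ∧ Cnt x (v (Sum.inl k)) (v (Sum.inr 2)) ∧
      AddR x (v (Sum.inr 0)) (v (Sum.inr 1)) (v (Sum.inr 2))) :=
    (sy_cnt _ _ _).and ((sy_cnt _ _ _).and ((sy_cnt _ _ _).and (sy_add hx _ _ _)))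
  refine (Sy.ex h).congr fun v => ?_
  unfold Sum' Cnt AddR
  simp only [Sum.elim_inl, Sum.elim_inr]
  constructor
  · intro h
    refine ⟨![List.replicate ((v i).count x) x, List.replicate ((v j).count x) x,
      List.replicate ((v k).count x) x], rfl, rfl, rfl, _, _, rfl, rfl, ?_⟩
    rw [h]
    rfl
  · rintro ⟨t, h1, h2, h3, a, b, h4, h5, h6⟩
    rw [h1] at h4
    rw [h2] at h5
    rw [h3] at h6
    have e1 := List.replicate_left_inj.1 h4
    have e2 := List.replicate_left_inj.1 h5
    have e3 := List.replicate_left_inj.1 h6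
    omega

/-- concatenation of words without the letter `2` -/
def ConR (u v w : Word) : Prop := 2 ∉ u ∧ 2 ∉ v ∧ w = u ++ v

def ConBody (u v w U X : Word) : Prop :=
  (2 ∉ u ∧ 2 ∉ v ∧ 2 ∉ w) ∧
  (2 ∈ U ∧ ¬ [2, 2].Sublist U ∧ ¬ [2, 0].Sublist U ∧ ¬ [2, 1].Sublist U ∧ u.Sublist U ∧
    Same 0 U u ∧ Same 1 U u) ∧
  (2 ∈ X ∧ ¬ [2, 2].Sublist X ∧ U.Sublist X ∧ (2 :: v).Sublist X ∧ Sum' 0 u v X ∧ Sum' 1 u v X) ∧
  w.Sublist X ∧ Same 0 w X ∧ Same 1 w X

theorem con_iff (u v w : Word) : ConR u v w ↔ ∃ U X, ConBody u v w U X := by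
  have c20 : (2 : Fin 3) ≠ 0 := by decide
  have c21 : (2 : Fin 3) ≠ 1 := by decide
  constructor
  · rintro ⟨hu, hv, rfl⟩
    refine ⟨u ++ 2 :: [], u ++ 2 :: v, ⟨hu, hv, by simp [hu, hv]⟩,
      ⟨by simp, marker_not hu (by simp), ?_, ?_, List.sublist_append_left _ _, ?_, ?_⟩,
      ⟨by simp, marker_not hu hv, ?_, ?_, ?_, ?_⟩, ?_, ?_, ?_⟩
    · intro h
      have h1 : (([] : Word) ++ 2 :: [(0 : Fin 3)]).Sublist (u ++ 2 :: []) := h
      rw [marker_sub (by simp) (by simp) hu (by simp)] at h1
      simp at h1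
    · intro h
      have h1 : (([] : Word) ++ 2 :: [(1 : Fin 3)]).Sublist (u ++ 2 :: []) := h
      rw [marker_sub (by simp) (by simp) hu (by simp)] at h1
      simp at h1
    · unfold Same
      rw [List.count_append, List.count_cons_of_ne c20]; simp
    · unfold Same
      rw [List.count_append, List.count_cons_of_ne c21]; simp
    · rw [marker_sub hu (by simp) hu hv]; simp
    · exact List.sublist_append_right _ _
    · unfold Sum'
      rw [List.count_append, List.count_cons_of_ne c20]
    · unfold Sum'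
      rw [List.count_append, List.count_cons_of_ne c21]
    · exact (List.Sublist.refl u).append (List.sublist_cons_self _ _)
    · unfold Same
      rw [List.count_append, List.count_append, List.count_cons_of_ne c20]
    · unfold Same
      rw [List.count_append, List.count_append, List.count_cons_of_ne c21]
  · rintro ⟨U, X, ⟨hu, hv, hw⟩, ⟨hU1, hU2, hU3, hU4, hU5, hU6, hU7⟩,
      ⟨hX1, hX2, hX3, hX4, hX5, hX6⟩, h1, h2, h3⟩
    obtain ⟨p, q, rfl, hp, hq⟩ := one_marker hU1 hU2
    obtain ⟨p', q', rfl, hp', hq'⟩ := one_marker hX1 hX2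
    have hq0 : q = [] := by
      rw [List.eq_nil_iff_forall_not_mem]
      intro y hy
      have h4 : ([2, y] : Word).Sublist (p ++ 2 :: q) :=
        ((List.singleton_sublist.2 hy).cons_cons 2).trans (List.sublist_append_right _ _)
      fin_cases y
      · exact hU3 h4
      · exact hU4 h4
      · exact hq hy
    subst hq0
    unfold Same at hU6 hU7 h2 h3
    unfold Sum' at hX5 hX6
    rw [List.count_append, List.count_cons_of_ne c20] at hU6
    rw [List.count_append, List.count_cons_of_ne c21] at hU7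
    rw [List.count_append, List.count_cons_of_ne c20] at hX5 h2
    rw [List.count_append, List.count_cons_of_ne c21] at hX6 h3
    have z2 : ∀ l : Word, 2 ∉ l → l.count 2 = 0 := fun l hl => List.count_eq_zero_of_not_mem hl
    have h4 : u.Sublist p := by
      obtain ⟨l1, l2, e1, e2, e3⟩ := List.sublist_append_iff.1 hU5
      have h5 : l2 = [] := by
        rcases List.sublist_cons_iff.1 e3 with h6 | ⟨t, rfl, ht⟩
        · exact List.sublist_nil.1 h6
        · exfalso; apply hu; rw [e1]; simp
      subst h5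
      rw [e1, List.append_nil]
      exact e2
    have h5 : u = p := by
      refine h4.eq_of_length ?_
      rw [length_eq_count, length_eq_count p, z2 u hu, z2 p hp]
      simp at hU6 hU7
      omega
    subst h5
    rw [marker_sub hp (by simp) hp' hq'] at hX3
    have hX4' : ([] ++ 2 :: v).Sublist (p' ++ 2 :: q') := hX4
    rw [marker_sub (by simp) hv hp' hq'] at hX4'
    have a1 := hX3.1.length_le
    have a2 := hX4'.2.length_le
    have b1 := length_eq_count u
    have b2 := length_eq_count v
    have b3 := length_eq_count p'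
    have b4 := length_eq_count q'
    rw [z2 u hu] at b1
    rw [z2 v hv] at b2
    rw [z2 p' hp'] at b3
    rw [z2 q' hq'] at b4
    have e1 : u = p' := hX3.1.eq_of_length (by omega)
    have e2 : v = q' := hX4'.2.eq_of_length (by omega)
    subst e1 e2
    refine ⟨hu, hv, ?_⟩
    have h6 : w.Sublist (u ++ v) := by
      obtain ⟨l1, l2, e1, e2, e3⟩ := List.sublist_append_iff.1 h1
      rcases List.sublist_cons_iff.1 e3 with h6 | ⟨t, rfl, ht⟩
      · rw [e1]; exact e2.append h6
      · exfalso; apply hw; rw [e1]; simp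
    refine h6.eq_of_length ?_
    have b5 := length_eq_count w
    rw [z2 w hw] at b5
    rw [List.length_append]
    omega

theorem sy_con {γ : Type} (i j k : γ) : Sy γ (fun v => ConR (v i) (v j) (v k)) := by
  have h0 : (0 : Fin 3) ≠ 2 := by decide
  have h1 : (1 : Fin 3) ≠ 2 := by decide
  have h : Sy ((γ ⊕ Unit) ⊕ Unit) (fun v => ConBody (v (Sum.inl (Sum.inl i)))
      (v (Sum.inl (Sum.inl j))) (v (Sum.inl (Sum.inl k))) (v (Sum.inl (Sum.inr ())))
      (v (Sum.inr ()))) := by
    unfold ConBody
    exact ((sy_notin _ _).and ((sy_notin _ _).and (sy_notin _ _))).and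
      (((sy_in _ _).and ((Sy.ncsub _ _).and ((Sy.ncsub _ _).and ((Sy.ncsub _ _).and
        ((Sy.sub [] [] _ _).and ((sy_same _ _ _).and (sy_same _ _ _))))))).and
      (((sy_in _ _).and ((Sy.ncsub _ _).and ((Sy.sub [] [] _ _).and ((Sy.sub [2] [] _ _).and
        ((sy_sum h0 _ _ _).and (sy_sum h1 _ _ _)))))).and
      ((Sy.sub [] [] _ _).and ((sy_same _ _ _).and (sy_same _ _ _)))))
  have h1 : Sy (γ ⊕ Unit) (fun v => ∃ X, ConBody (v (Sum.inl i)) (v (Sum.inl j))
      (v (Sum.inl k)) (v (Sum.inr ())) X) :=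
    Sy.ex1 (R := fun X v => ConBody (v (Sum.inl i)) (v (Sum.inl j))
      (v (Sum.inl k)) (v (Sum.inr ())) X) h
  refine (Sy.ex1 (R := fun V v => ∃ X, ConBody (v i) (v j) (v k) V X) h1).congr fun v => ?_
  exact con_iff _ _ _

end Pool.Agent.N631.RPO
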