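import Mathlib
import Pool.Agent.N631.RPO.Words2

set_option autoImplicit false

/-!
# Multiplication, and recursively enumerable sets
-/

namespace Pool.Agent.N631.RPO

/-- powers of a word -/
def rep (p : Word) : ℕ → Word
  | 0 => []
  | r + 1 => p ++ rep p r

theorem rep_comm (p : Word) (r : ℕ) : rep p r ++ p = p ++ rep p r := by
  induction r with
  | zero => simp [rep]
  | succ r ih =>
    change (p ++ rep p r) ++ p = p ++ (p ++ rep p r)
    rw [List.append_assoc, ih]

theorem count_rep (x : Fin 3) (p : Word) (r : ℕ) : (rep p r).count x = r * p.count x := by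
  induction r with
  | zero => simp [rep]
  | succ r ih =>
    change (p ++ rep p r).count x = _
    rw [List.count_append, ih]
    ring

theorem count10 (m : ℕ) : (List.replicate m (0 : Fin 3)).count 1 = 0 := by
  rw [List.count_replicate]
  simp

theorem count_p1 (m : ℕ) : (List.replicate m (0 : Fin 3) ++ [1]).count 1 = 1 := by
  rw [List.count_append, count10]
  simp

theorem count_p0 (m : ℕ) : (List.replicate m (0 : Fin 3) ++ [1]).count 0 = m := by
  rw [List.count_append]
  simp

/-- words commuting with `0 ^ m 1` -/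
theorem eq_rep (m : ℕ) : ∀ (k : ℕ) (w : Word), w.length ≤ k →
    w ++ (List.replicate m 0 ++ [1]) = (List.replicate m 0 ++ [1]) ++ w →
    ∃ r, w = rep (List.replicate m 0 ++ [1]) r := by
  intro k
  induction k with
  | zero =>
    intro w hw _
    exact ⟨0, List.length_eq_zero_iff.1 (Nat.le_zero.1 hw)⟩
  | succ k ih =>
    intro w hw h
    by_cases hw0 : w = []
    · exact ⟨0, hw0⟩
    rcases List.append_eq_append_iff.1 h with ⟨as, h1, h2⟩ | ⟨bs, h1, h2⟩
    · -- `p = w ++ as = as ++ w`
      have hlast : w.getLast hw0 = 1 := by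
        have h3 : (List.replicate m (0 : Fin 3) ++ [1]).getLast (by simp) = 1 := by simp
        have h4 : (as ++ w).getLast (by simp [hw0]) = w.getLast hw0 :=
          List.getLast_append_of_ne_nil _ hw0
        rw [← h4, ← h3]
        congr 1
        exact h2.symm
      have h1w : (1 : Fin 3) ∈ w := by
        rw [← hlast]
        exact List.getLast_mem hw0
      have hc : (List.replicate m (0 : Fin 3) ++ [1]).count 1 = 1 := count_p1 m
      have has : as = [] := by
        by_contra hne
        have h5 : as.getLast hne = 1 := by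
          have h3 : (List.replicate m (0 : Fin 3) ++ [1]).getLast (by simp) = 1 := by simp
          have h4 : (w ++ as).getLast (by simp [hw0]) = as.getLast hne :=
            List.getLast_append_of_ne_nil _ hne
          rw [← h4, ← h3]
          congr 1
          exact h1.symm
        have h6 : (1 : Fin 3) ∈ as := by
          rw [← h5]
          exact List.getLast_mem hne
        rw [h1, List.count_append] at hc
        have h7 := List.count_pos_iff.2 h1w
        have h8 := List.count_pos_iff.2 h6
        omega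
      subst has
      refine ⟨1, ?_⟩
      simp only [rep, List.append_nil] at h1 ⊢
      exact h1.symm
    · have h3 : bs.length ≤ k := by
        have := congrArg List.length h1
        simp at this
        omega
      obtain ⟨r, hr⟩ := ih bs h3 (h2.symm.trans h1)
      exact ⟨r + 1, by rw [h1, hr]; rfl⟩

/-- multiplication of exponents -/
def MulR (z1 z2 z3 : Word) : Prop :=
  ∃ m n : ℕ, z1 = List.replicate m 0 ∧ z2 = List.replicate n 0 ∧ z3 = List.replicate (m * n) 0

def MulBody (z1 z2 z3 : Word) (t : Fin 8 → Word) : Prop :=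
  Pow 0 z1 ∧ t 0 = [1] ∧ ConR z1 (t 0) (t 1) ∧ ConR (t 2) (t 1) (t 3) ∧ ConR (t 1) (t 2) (t 3) ∧
  Cnt 1 (t 2) (t 4) ∧ t 5 = [0, 1] ∧ [] ++ t 7 = [0, 1] ++ t 6 ∧ ConR (t 6) (t 5) (t 7) ∧
  Cnt 0 (t 6) z2 ∧ Cnt 1 (t 6) (t 4) ∧ Cnt 0 (t 2) z3

theorem notin_rep {x : Fin 3} {p : Word} (h : x ∉ p) (r : ℕ) : x ∉ rep p r := by
  induction r with
  | zero => simp [rep]
  | succ r ih => simp [rep, h, ih]

theorem mul_iff (z1 z2 z3 : Word) : MulR z1 z2 z3 ↔ ∃ t, MulBody z1 z2 z3 t := by
  constructor
  · rintro ⟨m, n, rfl, rfl, rfl⟩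
    have h2p : (2 : Fin 3) ∉ List.replicate m (0 : Fin 3) ++ [1] := by
      simp
    have h2q : (2 : Fin 3) ∉ ([0, 1] : Word) := by decide
    refine ⟨![[1], List.replicate m 0 ++ [1], rep (List.replicate m 0 ++ [1]) n,
      rep (List.replicate m 0 ++ [1]) (n + 1), List.replicate n 1, [0, 1], rep [0, 1] n,
      rep [0, 1] (n + 1)], pow_replicate _ _, rfl, ⟨by simp, (by decide : (2 : Fin 3) ∉ ([1] : Word)), rfl⟩,
      ⟨notin_rep h2p n, h2p, ?_⟩, ⟨h2p, notin_rep h2p n, rfl⟩, ?_, rfl, rfl,
      ⟨notin_rep h2q n, h2q, ?_⟩, ?_, ?_, ?_⟩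
    · exact (rep_comm _ _).symm
    · change List.replicate n 1 = List.replicate ((rep _ n).count 1) 1
      rw [count_rep, count_p1, mul_one]
    · exact (rep_comm _ _).symm
    · change List.replicate n 0 = List.replicate ((rep _ n).count 0) 0
      rw [count_rep]
      simp
    · change List.replicate n 1 = List.replicate ((rep _ n).count 1) 1
      rw [count_rep]
      simp
    · change List.replicate (m * n) 0 = List.replicate ((rep _ n).count 0) 0
      rw [count_rep, count_p0, mul_comm]
  · rintro ⟨t, h1, h2, h3, h4, h5, h6, h7, h8, h9, h10, h11, h12⟩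
    obtain ⟨-, -, h3⟩ := h3
    obtain ⟨-, -, h4⟩ := h4
    obtain ⟨-, -, h5⟩ := h5
    obtain ⟨-, -, h9⟩ := h9
    rw [pow_iff] at h1
    rw [h2] at h3
    rw [h1] at h3
    have h13 : t 2 ++ (List.replicate z1.length 0 ++ [1]) =
        (List.replicate z1.length 0 ++ [1]) ++ t 2 := by
      rw [← h3, ← h4, ← h5]
    obtain ⟨r, hr⟩ := eq_rep z1.length _ _ le_rfl h13
    have h14 : t 6 ++ (List.replicate 1 0 ++ [1]) = (List.replicate 1 0 ++ [1]) ++ t 6 := by
      have h15 : (List.replicate 1 0 ++ [1] : Word) = [0, 1] := rfl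
      rw [h15, ← h8, ← h7, ← h9]
      rfl
    obtain ⟨s, hs⟩ := eq_rep 1 _ _ le_rfl h14
    unfold Cnt at h6 h10 h11 h12
    rw [hr, count_rep, count_p1, mul_one] at h6
    rw [hr, count_rep, count_p0] at h12
    rw [hs, count_rep, count_p0, mul_one] at h10
    rw [hs, count_rep, count_p1, mul_one] at h11
    have h15 : r = s := by
      rw [h6] at h11
      exact List.replicate_left_inj.1 h11
    exact ⟨z1.length, s, h1, h10, by rw [h12, h15, mul_comm]⟩

theorem sy_mul {γ : Type} (i j k : γ) : Sy γ (fun v => MulR (v i) (v j) (v k)) := by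
  have h : Sy (γ ⊕ Fin 8) (fun v => MulBody (v (Sum.inl i)) (v (Sum.inl j)) (v (Sum.inl k))
      (fun l => v (Sum.inr l))) := by
    unfold MulBody
    exact (sy_pow _ _).and ((Sy.eqc _ _).and ((sy_con _ _ _).and ((sy_con _ _ _).and
      ((sy_con _ _ _).and ((sy_cnt _ _ _).and ((Sy.eqc _ _).and ((Sy.eqv _ _ _ _).and
      ((sy_con _ _ _).and ((sy_cnt _ _ _).and ((sy_cnt _ _ _).and (sy_cnt _ _ _)))))))))))
  refine (Sy.ex h).congr fun v => ?_
  rw [mul_iff]
  rfl

open Pool.Agent.H761R3.Sys

/-- the relation between words that corresponds to a constraint between numbers -/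
def RC {k : ℕ} (f : ℕ → Fin k) (v : Fin k → Word) : Con → Prop
  | .add i j l => AddR 0 (v (f i)) (v (f j)) (v (f l))
  | .one i => v (f i) = [0]
  | .mul i j l => MulR (v (f i)) (v (f j)) (v (f l))

theorem sy_con' {k : ℕ} (f : ℕ → Fin k) (c : Con) : Sy (Fin k) (fun v => RC f v c) := by
  cases c with
  | add i j l => exact sy_add (by decide) _ _ _
  | one i => exact Sy.eqc _ _
  | mul i j l => exact sy_mul _ _ _

theorem sy_list {γ α : Type} (R : α → (γ → Word) → Prop) (h : ∀ a, Sy γ (R a)) (L : List α) :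
    Sy γ (fun v => ∀ c ∈ L, R c v) := by
  induction L with
  | nil => exact sy_true.congr fun v => by simp
  | cons a L ih => exact ((h a).and ih).congr fun v => by simp

theorem exists_words (W : ℕ → Prop) (hW : REPred W) :
    ∃ (V : Type) (_ : Fintype V) (L : List (Lit V)) (p : V),
      ∀ n, W n ↔ ∃ y : V → Word, y p = List.replicate n 0 ∧ ∀ c ∈ L, Lit.Holds y c := by
  obtain ⟨k, L, hk, hL, h⟩ := exists_sys W hW
  let f : ℕ → Fin k := fun i => if hi : i < k then ⟨i, hi⟩ else ⟨0, hk⟩
  have hf : ∀ i, i < k → (f i : ℕ) = i := by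
    intro i hi
    simp only [f, dif_pos hi]
  have hs : Sy (Fin k) (fun v => (∀ i, Pow 0 (v i)) ∧ ∀ c ∈ L, RC f v c) :=
    (Sy.all fun i => sy_pow 0 i).and (sy_list (fun c v => RC f v c) (fun c => sy_con' f c) L)
  obtain ⟨β, _, L', hL'⟩ := hs
  refine ⟨Fin k ⊕ β, inferInstance, L', Sum.inl (f 0), fun n => ?_⟩
  rw [h]
  constructor
  · rintro ⟨x, hx0, hx⟩
    let v : Fin k → Word := fun i => List.replicate (x i) 0
    have hv : ∀ i, i < k → v (f i) = List.replicate (x i) 0 := by
      intro i hi
      simp only [v, hf i hi]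
    obtain ⟨y, hy⟩ := (hL' v).1 ⟨fun i => pow_replicate _ _, fun c hc => by
      have h1 := hL c hc
      have h2 := hx c hc
      cases c with
      | add i j l =>
        refine ⟨x i, x j, hv _ h1.1, hv _ h1.2.1, ?_⟩
        rw [hv _ h1.2.2]
        exact congrArg (fun n => List.replicate n 0) h2.symm
      | one i =>
        change v (f i) = _
        rw [hv _ h1]
        have h3 : x i = 1 := h2
        rw [h3]
        rfl
      | mul i j l =>
        refine ⟨x i, x j, hv _ h1.1, hv _ h1.2.1, ?_⟩
        rw [hv _ h1.2.2]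
        exact congrArg (fun n => List.replicate n 0) h2.symm⟩
    refine ⟨Sum.elim v y, ?_, hy⟩
    change v (f 0) = _
    rw [hv 0 hk, hx0]
  · rintro ⟨y, hy0, hy⟩
    have h1 : Sum.elim (fun i => y (Sum.inl i)) (fun b => y (Sum.inr b)) = y := by
      funext g
      rcases g with g | g <;> rfl
    obtain ⟨h2, h3⟩ := (hL' (fun i => y (Sum.inl i))).2 ⟨fun b => y (Sum.inr b), by
      rw [h1]; exact hy⟩
    refine ⟨fun i => (y (Sum.inl (f i))).length, by simp [hy0], fun c hc => ?_⟩
    have h4 := h3 c hc
    cases c with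
    | add i j l =>
      obtain ⟨a, b, e1, e2, e3⟩ := h4
      change (y (Sum.inl (f i))).length + (y (Sum.inl (f j))).length =
        (y (Sum.inl (f l))).length
      have e1' : y (Sum.inl (f i)) = List.replicate a 0 := e1
      have e2' : y (Sum.inl (f j)) = List.replicate b 0 := e2
      have e3' : y (Sum.inl (f l)) = List.replicate (a + b) 0 := e3
      rw [e1', e2', e3']
      simp
    | one i =>
      have h5 : y (Sum.inl (f i)) = [0] := h4
      change (y (Sum.inl (f i))).length = 1
      rw [h5]
      rfl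
    | mul i j l =>
      obtain ⟨a, b, e1, e2, e3⟩ := h4
      change (y (Sum.inl (f i))).length * (y (Sum.inl (f j))).length =
        (y (Sum.inl (f l))).length
      have e1' : y (Sum.inl (f i)) = List.replicate a 0 := e1
      have e2' : y (Sum.inl (f j)) = List.replicate b 0 := e2
      have e3' : y (Sum.inl (f l)) = List.replicate (a * b) 0 := e3
      rw [e1', e2', e3']
      simp

end Pool.Agent.N631.RPO
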