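import Mathlib
import Pool.Agent.N631.RPO.Defs
import Pool.Agent.N631.RPO.Words3

set_option autoImplicit false

/-!
# The recursive path ordering on the terms over incomparable unary symbols
-/

namespace Pool.Agent.N631.RPO

open FirstOrder FirstOrder.Language

/-- inversion -/
theorem gt_inv {S : Sig} {n : ℕ} {f : (lang S).Functions n} {s : Fin n → T S} {t : T S}
    (h : Gt S (Term.func f s) t) :
    (∃ i, Gt S (s i) t ∨ Eqv S (s i) t) ∨
    (∃ (m : ℕ) (g : (lang S).Functions m) (t' : Fin m → T S), t = Term.func g t' ∧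
      S.prec f.1 g.1 ∧ ∀ j, Gt S (Term.func f s) (t' j)) ∨
    (∃ t' : Fin n → T S, t = Term.func f t' ∧ (∀ j, Gt S (Term.func f s) (t' j)) ∧
      ((S.lex f.1 = true ∧ ∃ i, (∀ j, j < i → Eqv S (s j) (t' j)) ∧ Gt S (s i) (t' i)) ∨
       (S.lex f.1 = false ∧ ∃ (I : Set (Fin n)) (σ : Equiv.Perm (Fin n)), I.Nonempty ∧
        (∀ i, i ∉ I → Eqv S (s i) (t' (σ i))) ∧ ∀ i ∈ I, ∃ l ∈ I, Gt S (s l) (t' (σ i))))) := by
  cases h with
  | sub _ _ _ i h => exact Or.inl ⟨i, Or.inl h⟩
  | sub_eqv _ _ _ i h => exact Or.inl ⟨i, Or.inr h⟩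
  | prec _ g _ t' h1 h2 => exact Or.inr (Or.inl ⟨_, g, t', rfl, h1, h2⟩)
  | lex _ _ t' i h1 h2 h3 h4 => exact Or.inr (Or.inr ⟨t', rfl, h2, Or.inl ⟨h1, i, h3, h4⟩⟩)
  | mul _ _ t' σ I l h1 h2 h3 h4 h5 h6 =>
    exact Or.inr (Or.inr ⟨t', rfl, h2, Or.inr ⟨h1, I, σ, h3, h4, fun i hi => ⟨l i, h5 i hi, h6 i hi⟩⟩⟩)

/-- three unary symbols and a constant; below the unary symbols there is at most the constant, and
below the constant there is nothing -/
structure Setup (S : Sig) where
  u : Fin 3 → Fin S.k
  inj : Function.Injective u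
  ar_u : ∀ i, S.ar (u i) = 1
  c : Fin S.k
  ar_c : S.ar c = 0
  below : ∀ i g, S.prec (u i) g → g = c
  below_c : ∀ g, ¬ S.prec c g

namespace Setup

variable {S : Sig} (A : Setup S)

theorem u_ne_c (i : Fin 3) : A.u i ≠ A.c := by
  intro h
  have h1 := A.ar_u i
  rw [h, A.ar_c] at h1
  exact absurd h1 (by decide)

/-- the constant as a function symbol -/
def fc : (lang S).Functions 0 := ⟨A.c, A.ar_c⟩
/-- the unary symbols as function symbols -/
def fu (i : Fin 3) : (lang S).Functions 1 := ⟨A.u i, A.ar_u i⟩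

/-- words as terms -/
def enc : Word → T S
  | [] => Term.func A.fc Fin.elim0
  | x :: w => Term.func (A.fu x) (fun _ => enc w)

theorem enc_inj : Function.Injective A.enc := by
  intro u
  induction u with
  | nil =>
    intro v h
    cases v with
    | nil => rfl
    | cons y v =>
      simp only [enc] at h
      exact absurd (Term.func.inj h).1 (by decide)
  | cons x u ih =>
    intro v h
    cases v with
    | nil =>
      simp only [enc] at h
      exact absurd (Term.func.inj h).1 (by decide)
    | cons y v =>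
      simp only [enc] at h
      have h1 := Term.func.inj h
      have h2 : A.fu x = A.fu y := eq_of_heq h1.2.1
      have h3 : (fun _ : Fin 1 => A.enc u) = fun _ : Fin 1 => A.enc v := eq_of_heq h1.2.2
      have h4 : x = y := A.inj (congrArg Subtype.val h2)
      have h5 := ih (congrFun h3 0)
      rw [h4, h5]

/-- heads of encoded words -/
theorem func_eq_enc {n : ℕ} {f : (lang S).Functions n} {s : Fin n → T S} {w : Word}
    (h : Term.func f s = A.enc w) :
    (w = [] ∧ f.1 = A.c) ∨ ∃ x w', w = x :: w' ∧ f.1 = A.u x ∧ ∀ i, s i = A.enc w' := by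
  cases w with
  | nil =>
    left
    simp only [enc] at h
    cases h
    exact ⟨rfl, rfl⟩
  | cons x w =>
    right
    simp only [enc] at h
    cases h
    exact ⟨x, w, rfl, rfl, fun _ => rfl⟩

theorem func_c {n : ℕ} {f : (lang S).Functions n} (s : Fin n → T S) (h : f.1 = A.c) :
    Term.func f s = A.enc [] := by
  obtain ⟨f, hf⟩ := f
  simp only at h
  subst h
  have : n = 0 := by rw [← hf, A.ar_c]
  subst this
  simp only [enc]
  congr 1
  funext i
  exact i.elim0

theorem func_u {n : ℕ} {f : (lang S).Functions n} (s : Fin n → T S) {x : Fin 3}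
    (h : f.1 = A.u x) {w : Word} (hs : ∀ i, s i = A.enc w) :
    Term.func f s = A.enc (x :: w) := by
  obtain ⟨f, hf⟩ := f
  simp only at h
  subst h
  have : n = 1 := by rw [← hf, A.ar_u]
  subst this
  simp only [enc]
  congr 1
  funext i
  exact hs i

theorem arity_u {n : ℕ} {f : (lang S).Functions n} {x : Fin 3} (h : f.1 = A.u x) : n = 1 := by
  obtain ⟨f, hf⟩ := f
  simp only at h
  subst h
  rw [← hf, A.ar_u]

theorem eqv_enc {s t : T S} (h : Eqv S s t) : ∀ w, s = A.enc w ↔ t = A.enc w := by
  induction h with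
  | refl s => exact fun w => Iff.rfl
  | symm s t _ ih => exact fun w => (ih w).symm
  | trans s t u _ _ ih1 ih2 => exact fun w => (ih1 w).trans (ih2 w)
  | congr f s t _ ih =>
    intro w
    constructor
    · intro h
      rcases A.func_eq_enc h with ⟨rfl, h1⟩ | ⟨x, w', rfl, h1, h2⟩
      · exact A.func_c t h1
      · exact A.func_u t h1 fun i => (ih i w').1 (h2 i)
    · intro h
      rcases A.func_eq_enc h with ⟨rfl, h1⟩ | ⟨x, w', rfl, h1, h2⟩
      · exact A.func_c s h1
      · exact A.func_u s h1 fun i => (ih i w').2 (h2 i)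
  | perm f s σ _ =>
    intro w
    constructor
    · intro h
      rcases A.func_eq_enc h with ⟨rfl, h1⟩ | ⟨x, w', rfl, h1, h2⟩
      · exact A.func_c _ h1
      · exact A.func_u _ h1 fun i => h2 _
    · intro h
      rcases A.func_eq_enc h with ⟨rfl, h1⟩ | ⟨x, w', rfl, h1, h2⟩
      · exact A.func_c _ h1
      · refine A.func_u _ h1 fun i => ?_
        have := h2 (σ.symm i)
        simpa using this

theorem eqv_enc_iff (u v : Word) : Eqv S (A.enc u) (A.enc v) ↔ u = v := by
  constructor
  · intro h
    exact (A.enc_inj ((A.eqv_enc h u).1 rfl)).symm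
  · rintro rfl
    exact Eqv.refl _

/-- the ordering of encoded words is the subword ordering -/
theorem gt_enc_mp : ∀ (n : ℕ) (u v : Word), u.length + v.length ≤ n →
    Gt S (A.enc u) (A.enc v) → v.Sublist u ∧ v ≠ u := by
  intro n
  induction n with
  | zero =>
    intro u v hn h
    have h1 : u = [] := List.length_eq_zero_iff.1 (by omega)
    subst h1
    rcases gt_inv (f := A.fc) (s := Fin.elim0) h with ⟨i, -⟩ | ⟨m, g, t', -, h2, -⟩ | ⟨t', -, -, h2⟩
    · exact i.elim0
    · exact absurd h2 (A.below_c _)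
    · rcases h2 with ⟨-, i, -⟩ | ⟨-, I, σ, ⟨i, -⟩, -⟩
      · exact i.elim0
      · exact i.elim0
  | succ n ih =>
    intro u v hn h
    cases u with
    | nil =>
      rcases gt_inv (f := A.fc) (s := Fin.elim0) h with ⟨i, -⟩ | ⟨m, g, t', -, h2, -⟩ | ⟨t', -, -, h2⟩
      · exact i.elim0
      · exact absurd h2 (A.below_c _)
      · rcases h2 with ⟨-, i, -⟩ | ⟨-, I, σ, ⟨i, -⟩, -⟩
        · exact i.elim0
        · exact i.elim0
    | cons x u =>
      simp only [List.length_cons] at hn
      rcases gt_inv (f := A.fu x) (s := fun _ => A.enc u) h with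
        ⟨i, h1 | h1⟩ | ⟨m, g, t', h1, h2, h3⟩ | ⟨t', h1, h2, h3⟩
      · obtain ⟨h2, h3⟩ := ih u v (by omega) h1
        refine ⟨h2.cons x, fun h4 => ?_⟩
        have h5 := h2.length_le
        rw [h4] at h5
        simp at h5
      · rw [A.eqv_enc_iff] at h1
        subst h1
        exact ⟨List.sublist_cons_self _ _, fun h4 => by simpa using congrArg List.length h4⟩
      · have h4 := A.below x g.1 h2
        rcases A.func_eq_enc h1.symm with ⟨rfl, -⟩ | ⟨y, w', rfl, h5, -⟩
        · exact ⟨List.nil_sublist _, by simp⟩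
        · exact absurd (h5.symm.trans h4) (A.u_ne_c y)
      · rcases A.func_eq_enc h1.symm with ⟨rfl, h5⟩ | ⟨y, w', rfl, h5, h6⟩
        · exact absurd h5 (A.u_ne_c x)
        · have h7 : x = y := A.inj h5
          subst h7
          have h8 : Gt S (A.enc u) (A.enc w') := by
            rcases h3 with ⟨-, i, -, h9⟩ | ⟨-, I, σ, ⟨i, hi⟩, -, h9⟩
            · rw [h6 i] at h9
              exact h9
            · obtain ⟨l, -, h10⟩ := h9 i hi
              rw [h6] at h10
              exact h10
          simp only [List.length_cons] at hn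
          obtain ⟨h9, h10⟩ := ih u w' (by omega) h8
          exact ⟨h9.cons_cons x, fun h11 => h10 (by simpa using h11)⟩

theorem gt_enc_mpr {u v : Word} (h : v.Sublist u) : v ≠ u → Gt S (A.enc u) (A.enc v) := by
  induction h with
  | slnil => intro h; exact absurd rfl h
  | @cons v u x h ih =>
    intro _
    by_cases h1 : v = u
    · subst h1
      exact Gt.sub_eqv (A.fu x) _ _ 0 (Eqv.refl _)
    · exact Gt.sub (A.fu x) _ _ 0 (ih h1)
  | @cons_cons v u x h ih =>
    intro h1
    have h2 : Gt S (A.enc u) (A.enc v) := ih fun h2 => h1 (by rw [h2])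
    have h3 : Gt S (A.enc (x :: u)) (A.enc v) := Gt.sub (A.fu x) _ _ 0 h2
    cases hl : S.lex (A.fu x).1 with
    | true =>
      exact Gt.lex (A.fu x) (fun _ => A.enc u) (fun _ => A.enc v) 0 hl (fun _ => h3)
        (fun j hj => absurd hj (by simp)) h2
    | false =>
      exact Gt.mul (A.fu x) (fun _ => A.enc u) (fun _ => A.enc v) 1 Set.univ id hl (fun _ => h3)
        Set.univ_nonempty (fun i hi => absurd (Set.mem_univ i) hi) (fun i hi => hi) (fun _ _ => h2)

theorem gt_enc_iff (u v : Word) : Gt S (A.enc u) (A.enc v) ↔ v.Sublist u ∧ v ≠ u :=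
  ⟨A.gt_enc_mp _ u v le_rfl, fun h => A.gt_enc_mpr h.1 h.2⟩

theorem sublist_iff (u v : Word) :
    v.Sublist u ↔ A.enc u = A.enc v ∨ Gt S (A.enc u) (A.enc v) := by
  rw [A.gt_enc_iff]
  constructor
  · intro h
    by_cases h1 : v = u
    · exact Or.inl (by rw [h1])
    · exact Or.inr ⟨h, h1⟩
  · rintro (h | h)
    · rw [A.enc_inj h]
    · exact h.1

/-! ### The terms that are encoded words -/

/-- the other symbols -/
def Other (g : Fin S.k) : Prop := g ≠ A.c ∧ ∀ i, g ≠ A.u i

/-- the symbol `g` applied to the constant `c` -/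
def gc (g : Fin S.k) : T S :=
  Term.func (⟨g, rfl⟩ : (lang S).Functions (S.ar g)) (fun _ => A.enc [])

theorem head_eq {n m : ℕ} {f : (lang S).Functions n} {g : (lang S).Functions m}
    {s : Fin n → T S} {t : Fin m → T S} (h : (Term.func f s : T S) = Term.func g t) : f.1 = g.1 := by
  have h1 := Term.func.inj h
  obtain ⟨rfl, h2, -⟩ := h1
  exact congrArg Subtype.val (eq_of_heq h2)

theorem not_gt_gc {g : Fin S.k} (hg : A.Other g) (w : Word) :
    A.enc w ≠ A.gc g ∧ ¬ Gt S (A.enc w) (A.gc g) := by
  have h0 : ∀ w, A.enc w ≠ A.gc g := by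
    intro w h
    rcases A.func_eq_enc h.symm with ⟨rfl, h1⟩ | ⟨x, w', rfl, h1, -⟩
    · exact hg.1 h1
    · exact hg.2 x h1
  refine ⟨h0 w, ?_⟩
  induction w with
  | nil =>
    intro h
    rcases gt_inv (f := A.fc) (s := Fin.elim0) h with ⟨i, -⟩ | ⟨m, g, t', -, h2, -⟩ | ⟨t', -, -, h2⟩
    · exact i.elim0
    · exact absurd h2 (A.below_c _)
    · rcases h2 with ⟨-, i, -⟩ | ⟨-, I, σ, ⟨i, -⟩, -⟩
      · exact i.elim0
      · exact i.elim0
  | cons x w ih =>
    intro h
    rcases gt_inv (f := A.fu x) (s := fun _ => A.enc w) h with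
      ⟨i, h1 | h1⟩ | ⟨m, g', t', h1, h2, h3⟩ | ⟨t', h1, h2, h3⟩
    · exact ih h1
    · exact h0 w ((A.eqv_enc h1 w).1 rfl).symm
    · have h4 := A.below x g'.1 h2
      unfold gc at h1
      cases h1
      exact hg.1 h4
    · exact hg.2 x (head_eq h1)

theorem exists_word (t : T S) (h : ∀ g, A.Other g → t ≠ A.gc g ∧ ¬ Gt S t (A.gc g)) :
    ∃ w, t = A.enc w := by
  induction t with
  | var e => exact e.elim
  | @func n f s ih =>
    have h1 : ∀ i, ∃ w, s i = A.enc w := by
      intro i
      apply ih i
      intro g hg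
      constructor
      · intro h2
        exact (h g hg).2 (Gt.sub_eqv f s _ i (by rw [h2]; exact Eqv.refl _))
      · intro h2
        exact (h g hg).2 (Gt.sub f s _ i h2)
    choose w hw using h1
    by_cases hc : f.1 = A.c
    · exact ⟨[], A.func_c s hc⟩
    by_cases hu : ∃ x, f.1 = A.u x
    · obtain ⟨x, hx⟩ := hu
      have hn := A.arity_u hx
      subst hn
      refine ⟨x :: w 0, A.func_u s hx fun i => ?_⟩
      rw [hw i, Subsingleton.elim i 0]
    · exfalso
      have hO : A.Other f.1 := ⟨hc, fun i hi => hu ⟨i, hi⟩⟩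
      obtain ⟨f, hf⟩ := f
      subst hf
      by_cases hall : ∀ i, w i = []
      · apply (h f hO).1
        unfold gc
        congr 1
        funext i
        rw [hw i, hall i]
      · push Not at hall
        apply (h f hO).2
        -- some argument is larger than `c`
        have hnn : ∀ i, w i ≠ [] → Gt S (s i) (A.enc []) := by
          intro i hi
          rw [hw i, A.gt_enc_iff]
          exact ⟨List.nil_sublist _, hi.symm⟩
        have hbase : Gt S (Term.func (⟨f, rfl⟩ : (lang S).Functions (S.ar f)) s) (A.enc []) := by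
          obtain ⟨i, hi⟩ := hall
          exact Gt.sub _ s _ i (hnn i hi)
        cases hl : S.lex f with
        | true =>
          -- the first argument different from `c`
          let P : Finset (Fin (S.ar f)) := Finset.univ.filter fun i => w i ≠ []
          have hP : P.Nonempty := by
            obtain ⟨i, hi⟩ := hall
            exact ⟨i, by simp [P, hi]⟩
          have hmem := P.min'_mem hP
          refine Gt.lex (⟨f, rfl⟩ : (lang S).Functions (S.ar f)) s (fun _ => A.enc []) (P.min' hP) hl
            (fun _ => hbase) (fun j hj => ?_) (hnn _ (by simpa [P] using hmem))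
          have h2 : j ∉ P := fun h3 => absurd (P.min'_le j h3) (not_le.2 hj)
          have h3 : w j = [] := by
            by_contra h4
            exact h2 (by simp [P, h4])
          rw [hw j, h3]
          exact Eqv.refl _
        | false =>
          refine Gt.mul (⟨f, rfl⟩ : (lang S).Functions (S.ar f)) s (fun _ => A.enc []) 1
            {i | w i ≠ []} id hl (fun _ => hbase) hall (fun i hi => ?_) (fun i hi => hi)
            (fun i hi => hnn i hi)
          have h3 : w i = [] := by
            by_contra h4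
            exact hi h4
          rw [hw i, h3]
          exact Eqv.refl _

theorem exists_word_iff (t : T S) : (∃ w, t = A.enc w) ↔
    ∀ g, A.Other g → t ≠ A.gc g ∧ ¬ Gt S t (A.gc g) := by
  constructor
  · rintro ⟨w, rfl⟩ g hg
    exact A.not_gt_gc hg w
  · exact A.exists_word t

end Setup

end Pool.Agent.N631.RPO
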