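import Mathlib
import Pool.Agent.N631.RPO.Order

set_option autoImplicit false

/-!
# Existential sentences for recursively enumerable sets
-/

namespace Pool.Agent.N631.RPO

open FirstOrder FirstOrder.Language

variable {S : Sig}

/-! ### Formulas -/

/-- the atomic formula `s > t` -/
def gtF {m : ℕ} (s t : (lang S).Term (Empty ⊕ Fin m)) : (lang S).BoundedFormula Empty m :=
  .rel (n := m) (R := GtSym.gt) ![s, t]

theorem realize_gtF {m : ℕ} (s t : (lang S).Term (Empty ⊕ Fin m)) (v : Empty → T S)
    (x : Fin m → T S) : (gtF s t).Realize v x ↔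
      Gt S (s.realize (Sum.elim v x)) (t.realize (Sum.elim v x)) := Iff.rfl

theorem isQF_gtF {m : ℕ} (s t : (lang S).Term (Empty ⊕ Fin m)) : (gtF s t).IsQF :=
  (BoundedFormula.IsAtomic.rel _ _).isQF

/-- the formula `s = t` or `s > t` -/
def geF {m : ℕ} (s t : (lang S).Term (Empty ⊕ Fin m)) : (lang S).BoundedFormula Empty m :=
  .imp (.imp (.equal s t) .falsum) (gtF s t)

theorem realize_geF {m : ℕ} (s t : (lang S).Term (Empty ⊕ Fin m)) (v : Empty → T S)
    (x : Fin m → T S) : (geF s t).Realize v x ↔
      (s.realize (Sum.elim v x) = t.realize (Sum.elim v x) ∨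
        Gt S (s.realize (Sum.elim v x)) (t.realize (Sum.elim v x))) := by
  change (¬ (s.realize (Sum.elim v x) = t.realize (Sum.elim v x)) →
        Gt S (s.realize (Sum.elim v x)) (t.realize (Sum.elim v x))) ↔ _
  tauto

theorem isQF_geF {m : ℕ} (s t : (lang S).Term (Empty ⊕ Fin m)) : (geF s t).IsQF :=
  (((BoundedFormula.IsAtomic.equal _ _).isQF).imp BoundedFormula.isQF_bot).imp (isQF_gtF s t)

theorem isQF_foldr {m : ℕ} (l : List ((lang S).BoundedFormula Empty m)) (h : ∀ φ ∈ l, φ.IsQF) :
    (l.foldr (· ⊓ ·) ⊤).IsQF := by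
  induction l with
  | nil => exact BoundedFormula.IsQF.top
  | cons a l ih =>
    exact (h a (by simp)).inf (ih fun φ hφ => h φ (by simp [hφ]))

theorem isExistential_exs {m : ℕ} (φ : (lang S).BoundedFormula Empty m) (h : φ.IsExistential) :
    (φ.exs : (lang S).Sentence).IsExistential := by
  induction m with
  | zero => exact h
  | succ m ih => exact ih φ.ex h.ex

/-- effect of an existential quantifier on Gödel numbers -/
def exCode (c : ℕ) : ℕ :=
  Nat.pair 3 (Nat.pair (Nat.pair 4 (Nat.pair 3 (Nat.pair c (Nat.pair 0 0)))) (Nat.pair 0 0))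

theorem code_exs {m : ℕ} (φ : (lang S).BoundedFormula Empty m) :
    code (φ.exs : (lang S).Sentence) = exCode^[m] (code φ) := by
  induction m with
  | zero => rfl
  | succ m ih =>
    change code (φ.ex.exs) = _
    rw [ih φ.ex, Function.iterate_succ_apply]
    rfl

theorem primrec_exCode : Primrec exCode := by
  have h1 : Primrec fun c : ℕ => Nat.pair 3 (Nat.pair c (Nat.pair 0 0)) :=
    Primrec₂.natPair.comp (Primrec.const 3) (Primrec₂.natPair.comp Primrec.id (Primrec.const _))
  have h2 : Primrec fun c : ℕ => Nat.pair 4 c :=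
    Primrec₂.natPair.comp (Primrec.const 4) Primrec.id
  exact h1.comp (h2.comp h1)

theorem computable_iter (m : ℕ) : Computable (fun c : ℕ => exCode^[m] c) := by
  induction m with
  | zero => exact Computable.id
  | succ k ih => exact ih.comp primrec_exCode.to_comp

namespace Setup

variable (A : Setup S)

/-- prefixing a word to a term -/
def wterm {m : ℕ} : Word → (lang S).Term (Empty ⊕ Fin m) → (lang S).Term (Empty ⊕ Fin m)
  | [], t => t
  | x :: w, t => Term.func (A.fu x) (fun _ => wterm w t)

theorem realize_wterm {m : ℕ} (w : Word) (t : (lang S).Term (Empty ⊕ Fin m)) (v : Empty → T S)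
    (x : Fin m → T S) {u : Word} (h : t.realize (Sum.elim v x) = A.enc u) :
    (A.wterm w t).realize (Sum.elim v x) = A.enc (w ++ u) := by
  induction w with
  | nil => exact h
  | cons a w ih =>
    change Term.func (A.fu a) (fun _ => (A.wterm w t).realize (Sum.elim v x)) = _
    rw [ih]
    rfl

/-- the constant as a term with variables -/
def cterm (m : ℕ) : (lang S).Term (Empty ⊕ Fin m) := Term.func A.fc Fin.elim0

theorem realize_cterm {m : ℕ} (v : Empty → T S) (x : Fin m → T S) :
    (A.cterm m).realize (Sum.elim v x) = A.enc [] := by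
  change Term.func A.fc (fun i => _) = Term.func A.fc _
  congr 1
  funext i
  exact i.elim0

/-- translation of terms -/
def toTerm {V : Type} {m : ℕ} (f : V → Fin m) (t : WT V) : (lang S).Term (Empty ⊕ Fin m) :=
  A.wterm t.1 (match t.2 with
    | none => A.cterm m
    | some a => Term.var (Sum.inr (f a)))

theorem realize_toTerm {V : Type} {m : ℕ} (f : V → Fin m) (t : WT V) (v : Empty → T S)
    (x : Fin m → T S) (y : V → Word) (h : ∀ a, x (f a) = A.enc (y a)) :
    (A.toTerm f t).realize (Sum.elim v x) = A.enc (t.eval y) := by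
  obtain ⟨w, a⟩ := t
  cases a with
  | none => exact A.realize_wterm w _ v x (A.realize_cterm v x)
  | some a => exact A.realize_wterm w _ v x (h a)

/-- translation of literals -/
def toForm {V : Type} {m : ℕ} (f : V → Fin m) (l : Lit V) : (lang S).BoundedFormula Empty m :=
  if l.1 then geF (A.toTerm f l.2.2) (A.toTerm f l.2.1)
  else .imp (geF (A.toTerm f l.2.2) (A.toTerm f l.2.1)) .falsum

theorem realize_toForm {V : Type} {m : ℕ} (f : V → Fin m) (l : Lit V) (v : Empty → T S)
    (x : Fin m → T S) (y : V → Word) (h : ∀ a, x (f a) = A.enc (y a)) :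
    (A.toForm f l).Realize v x ↔ l.Holds y := by
  have h1 : (geF (A.toTerm f l.2.2) (A.toTerm f l.2.1)).Realize v x ↔
      (l.2.1.eval y).Sublist (l.2.2.eval y) := by
    rw [realize_geF, A.realize_toTerm f _ v x y h, A.realize_toTerm f _ v x y h, A.sublist_iff]
  unfold toForm Lit.Holds
  obtain ⟨b, s, t⟩ := l
  cases b with
  | true => simpa using h1
  | false =>
    change ((geF (A.toTerm f t) (A.toTerm f s)).Realize v x → False) ↔ _
    simp only at h1
    rw [h1]
    simp

theorem isQF_toForm {V : Type} {m : ℕ} (f : V → Fin m) (l : Lit V) : (A.toForm f l).IsQF := by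
  unfold toForm
  split_ifs
  · exact isQF_geF _ _
  · exact (isQF_geF _ _).imp BoundedFormula.isQF_bot

/-- the term `g(c, ..., c)` with variables -/
def gterm (m : ℕ) (g : Fin S.k) : (lang S).Term (Empty ⊕ Fin m) :=
  Term.func (⟨g, rfl⟩ : (lang S).Functions (S.ar g)) (fun _ => A.cterm m)

theorem realize_gterm {m : ℕ} (g : Fin S.k) (v : Empty → T S) (x : Fin m → T S) :
    (A.gterm m g).realize (Sum.elim v x) = A.gc g := by
  change Term.func _ (fun i => (A.cterm m).realize (Sum.elim v x)) = _
  rw [A.realize_cterm]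
  rfl

/-- the formula saying that a variable is neither `g(c, ..., c)` nor greater -/
def avoid {m : ℕ} (i : Fin m) (g : Fin S.k) : (lang S).BoundedFormula Empty m :=
  .imp (geF (Term.var (Sum.inr i)) (A.gterm m g)) .falsum

theorem realize_avoid {m : ℕ} (i : Fin m) (g : Fin S.k) (v : Empty → T S) (x : Fin m → T S) :
    (A.avoid i g).Realize v x ↔ (x i ≠ A.gc g ∧ ¬ Gt S (x i) (A.gc g)) := by
  change ((geF (Term.var (Sum.inr i)) (A.gterm m g)).Realize v x → False) ↔ _
  rw [realize_geF, A.realize_gterm]
  change ((x i = A.gc g ∨ Gt S (x i) (A.gc g)) → False) ↔ _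
  tauto

open Classical in
/-- the list of the conditions saying that all variables are words -/
noncomputable def range (m : ℕ) : List ((lang S).BoundedFormula Empty m) :=
  (List.finRange m).flatMap fun i =>
    ((List.finRange S.k).filter fun g => A.Other g).map fun g => A.avoid i g

theorem realize_range {m : ℕ} (v : Empty → T S) (x : Fin m → T S) :
    (∀ φ ∈ A.range m, φ.Realize v x) ↔ ∀ i, ∃ w, x i = A.enc w := by
  unfold range
  simp only [List.mem_flatMap, List.mem_finRange, true_and, List.mem_map, List.mem_filter,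
    decide_eq_true_eq]
  constructor
  · intro h i
    rw [A.exists_word_iff]
    intro g hg
    exact (A.realize_avoid i g v x).1 (h _ ⟨i, g, hg, rfl⟩)
  · rintro h φ ⟨i, g, hg, rfl⟩
    rw [A.realize_avoid]
    exact (A.exists_word_iff _).1 (h i) g hg

theorem isQF_range {m : ℕ} : ∀ φ ∈ A.range m, φ.IsQF := by
  intro φ hφ
  unfold range at hφ
  simp only [List.mem_flatMap, List.mem_finRange, true_and, List.mem_map, List.mem_filter,
    decide_eq_true_eq] at hφ
  obtain ⟨i, g, -, rfl⟩ := hφ
  exact (isQF_geF _ _).imp BoundedFormula.isQF_bot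

/-- the numeral `a(...a(c))` -/
def num (m n : ℕ) : (lang S).Term (Empty ⊕ Fin m) := A.wterm (List.replicate n 0) (A.cterm m)

theorem computable_num (m : ℕ) : Computable fun n => termCode (A.num m n) := by
  have h1 : Primrec₂ (fun (_ : ℕ) (p : ℕ × ℕ) =>
      Nat.pair ((A.u 0 : ℕ) + 1) (Encodable.encode [p.2])) := by
    refine Primrec₂.natPair.comp (Primrec.const _) (Primrec.encode.comp ?_)
    exact Primrec.list_cons.comp (Primrec.snd.comp Primrec.snd) (Primrec.const [])
  have h2 : Primrec (fun n : ℕ => Nat.rec (motive := fun _ => ℕ) (termCode (A.num m 0))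
      (fun _ IH => Nat.pair ((A.u 0 : ℕ) + 1) (Encodable.encode [IH])) n) :=
    Primrec.nat_rec' Primrec.id (Primrec.const _) h1
  refine h2.to_comp.of_eq fun n => ?_
  induction n with
  | zero => rfl
  | succ n ih =>
    change Nat.pair _ (Encodable.encode [_]) = _
    rw [ih]
    rfl

include A in
/-- **The reduction.** -/
theorem reduction (W : ℕ → Prop) (hW : REPred W) :
    ∃ φ : ℕ → (lang S).Sentence, Computable (fun n => code (φ n)) ∧
      ∀ n, (φ n).IsExistential ∧ (T S ⊨ φ n ↔ W n) := by
  obtain ⟨V, _, L, p, hL⟩ := exists_words W hW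
  let m := Fintype.card V
  let f : V → Fin m := Fintype.equivFin V
  let rest : (lang S).BoundedFormula Empty m :=
    (A.range m ++ L.map (A.toForm f)).foldr (· ⊓ ·) ⊤
  let body : ℕ → (lang S).BoundedFormula Empty m := fun n =>
    (BoundedFormula.equal (Term.var (Sum.inr (f p))) (A.num m n)) ⊓ rest
  have hrest : rest.IsQF := by
    apply isQF_foldr
    intro φ hφ
    rcases List.mem_append.1 hφ with h | h
    · exact A.isQF_range φ h
    · obtain ⟨l, -, rfl⟩ := List.mem_map.1 h
      exact A.isQF_toForm f l
  have hreal : ∀ n v (x : Fin m → T S), (body n).Realize v x ↔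
      ∃ y : V → Word, (∀ a, x (f a) = A.enc (y a)) ∧ y p = List.replicate n 0 ∧
        ∀ l ∈ L, Lit.Holds y l := by
    intro n v x
    have h0 : (BoundedFormula.equal (Term.var (Sum.inr (f p))) (A.num m n)).Realize v x ↔
        x (f p) = A.enc (List.replicate n 0) := by
      change x (f p) = (A.num m n).realize (Sum.elim v x) ↔ _
      rw [num, A.realize_wterm _ _ v x (A.realize_cterm v x), List.append_nil]
    have h1 : rest.Realize v x ↔
        ∀ φ ∈ A.range m ++ L.map (A.toForm f), φ.Realize v x :=
      BoundedFormula.realize_foldr_inf _ _ _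
    have h2 : (body n).Realize v x ↔
        (BoundedFormula.equal (Term.var (Sum.inr (f p))) (A.num m n)).Realize v x ∧
          rest.Realize v x := BoundedFormula.realize_inf
    rw [h2, h0, h1]
    constructor
    · rintro ⟨h3, h4⟩
      have h5 := (A.realize_range v x).1 fun φ hφ => h4 φ (List.mem_append_left _ hφ)
      choose w hw using h5
      refine ⟨w ∘ f, fun a => hw _, ?_, fun l hl => ?_⟩
      · apply A.enc_inj
        rw [← h3, hw (f p)]
        rfl
      · exact (A.realize_toForm f l v x (w ∘ f) fun a => hw _).1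
          (h4 _ (List.mem_append_right _ (List.mem_map_of_mem hl)))
    · rintro ⟨y, h3, h4, h5⟩
      refine ⟨by rw [h3, h4], fun φ hφ => ?_⟩
      rcases List.mem_append.1 hφ with h | h
      · refine (A.realize_range v x).2 (fun i => ⟨y ((Fintype.equivFin V).symm i), ?_⟩) φ h
        rw [← h3]
        simp [f]
      · obtain ⟨l, hl, rfl⟩ := List.mem_map.1 h
        exact (A.realize_toForm f l v x y h3).2 (h5 l hl)
  refine ⟨fun n => (body n).exs, ?_, fun n => ⟨?_, ?_⟩⟩
  · have h1 : Computable fun n => code (body n) := by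
      change Computable fun n => Nat.pair 3 (Nat.pair (Nat.pair 3 (Nat.pair (Nat.pair 1
        (Nat.pair (termCode (S := S) (m := m) (Term.var (Sum.inr (f p)))) (termCode (A.num m n))))
        (Nat.pair 3 (Nat.pair (code rest) (Nat.pair 0 0))))) (Nat.pair 0 0))
      have h2 : Computable fun n => Nat.pair 1
        (Nat.pair (termCode (S := S) (m := m) (Term.var (Sum.inr (f p)))) (termCode (A.num m n))) :=
        Primrec₂.natPair.to_comp.comp (Computable.const 1)
          (Primrec₂.natPair.to_comp.comp (Computable.const _) (A.computable_num m))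
      exact Primrec₂.natPair.to_comp.comp (Computable.const 3)
        (Primrec₂.natPair.to_comp.comp (Primrec₂.natPair.to_comp.comp (Computable.const 3)
          (Primrec₂.natPair.to_comp.comp h2 (Computable.const _))) (Computable.const _))
    refine ((computable_iter m).comp h1).of_eq fun n => ?_
    rw [code_exs]
  · apply isExistential_exs
    exact (((BoundedFormula.IsAtomic.equal _ _).isQF).inf hrest).isExistential
  · obtain ⟨v0, h2⟩ : ∃ v0 : Empty → T S, (T S ⊨ ((body n).exs : (lang S).Sentence)) ↔
        ∃ x : Fin m → T S, (body n).Realize v0 x := ⟨_, BoundedFormula.realize_exs⟩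
    rw [h2, hL n]
    constructor
    · rintro ⟨x, hx⟩
      obtain ⟨y, -, h3, h4⟩ := (hreal n v0 x).1 hx
      exact ⟨y, h3, h4⟩
    · rintro ⟨y, h3, h4⟩
      refine ⟨fun i => A.enc (y ((Fintype.equivFin V).symm i)), (hreal n v0 _).2
        ⟨y, fun a => by simp [f], h3, h4⟩⟩

end Setup

/-! ### The halting problem -/

def haltSet (a : ℕ) : Prop := (Nat.Partrec.Code.eval (Denumerable.ofNat Nat.Partrec.Code a) 0).Dom

theorem haltSet_re : REPred haltSet := by
  have h : Partrec fun a : ℕ => Nat.Partrec.Code.eval (Denumerable.ofNat Nat.Partrec.Code a) 0 :=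
    Nat.Partrec.Code.eval_part.comp (Primrec.ofNat Nat.Partrec.Code).to_comp (Computable.const 0)
  exact h.dom_re

theorem haltSet_not_computable : ¬ ComputablePred haltSet := by
  intro h
  apply ComputablePred.halting_problem 0
  obtain ⟨inst, hc⟩ := h
  have h2 : Computable fun c : Nat.Partrec.Code => decide (haltSet (Encodable.encode c)) :=
    hc.comp Computable.encode
  have h3 : ∀ c : Nat.Partrec.Code, haltSet (Encodable.encode c) ↔ (c.eval 0).Dom := by
    intro c
    unfold haltSet
    rw [Denumerable.ofNat_encode]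
  refine ⟨fun c => Classical.dec _, h2.of_eq fun c => ?_⟩
  have h4 := h3 c
  rw [Bool.eq_iff_iff]
  simp only [decide_eq_true_eq]
  exact h4

theorem not_existentialDecidable (A : Setup S) : ¬ ExistentialDecidable S := by
  rintro ⟨d, hd, hds⟩
  obtain ⟨φ, hφ, h⟩ := A.reduction haltSet haltSet_re
  apply haltSet_not_computable
  refine ⟨fun n => Classical.dec _, ?_⟩
  have h5 : Computable fun n => d (code (φ n)) := hd.comp hφ
  refine h5.of_eq fun n => ?_
  have h6 := hds (φ n) (h n).1
  rw [(h n).2] at h6
  rw [Bool.eq_iff_iff, h6]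
  simp

end Pool.Agent.N631.RPO
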